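import Pool.Agent.VMX.StmtsF

/-!
VMX, row FGR: from `FG` to `RN`.
-/

set_option autoImplicit false

open Matrix Filter Topology

namespace Pool.Agent.VMX.H47

open Pool.Agent.PFS Pool.Agent.PFJ Pool.Agent.NBT Pool.Agent.VMX

theorem fgr : FgrStmt := by
  intro n k C Γ hC a ε σ w z g s lam hε hF
  have hlam : 0 < lam := by
    have := hF.l1
    linarith
  have he : ∀ i : Fin (k + 1), 0 < Real.exp (a i * σ) * (if i = 0 then lam else 1) := by
    intro i
    apply mul_pos (Real.exp_pos _)
    split_ifs
    · exact hlam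
    · exact one_pos
  have heq : ∀ i : Fin (k + 1), s • act g (w i) =
      (Real.exp (a i * σ) * (if i = 0 then lam else 1)) • Function.update z 0 (w 0) i := by
    intro i
    by_cases hi : i = 0
    · subst hi
      rw [Function.update_self, if_pos rfl]
      exact hF.e0
    · rw [Function.update_of_ne hi, if_neg hi, mul_one]
      exact hF.ei i hi
  have hcl : ∀ i, w i ∈ closure C := fun i => hF.pes.1.cl i
  have hsum : ∑ m, w m = w 0 + fS w ({0}ᶜ : Finset (Fin (k + 1))) := by
    rw [← fS_add_compl w {0}, fS_single]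
  refine ⟨hF.pes, ?_, hF.gm, hF.s0, he, heq, ?_⟩
  · have h1 := (Pool.Agent.PFS.H60.elm n C Γ hC (Fin (k + 1)) w hF.pes).2.1 g hF.gm s hF.s0
    have h2 := (Pool.Agent.PFS.H60.elm n C Γ hC (Fin (k + 1)) _ h1).1
      (fun i => (Real.exp (a i * σ) * (if i = 0 then lam else 1))⁻¹)
      (fun i => inv_pos.2 (he i))
    have h3 : (fun i => (Real.exp (a i * σ) * (if i = 0 then lam else 1))⁻¹ • (s • act g (w i)))
        = Function.update z 0 (w 0) := by
      funext i
      rw [heq i, smul_smul, inv_mul_cancel₀ (he i).ne', one_smul]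
    rw [h3] at h2
    exact h2
  · intro i
    by_cases hi : i = 0
    · subst hi
      rw [Function.update_self, sub_self, sub_zero, add_zero]
      have h1 : ε • (∑ m, w m) ∈ closure C :=
        hC.cl_smul (hC.cl_sum fun i _ => hcl i) hε
      exact ⟨h1, h1⟩
    · obtain ⟨_, h2, h3⟩ := hF.nr i hi
      rw [Function.update_of_ne hi, hsum, smul_add]
      have h4 : ε • w 0 ∈ closure C := hC.cl_smul (hcl 0) hε
      constructor
      · have e : ε • w 0 + ε • fS w ({0}ᶜ : Finset (Fin (k + 1))) - (z i - w i)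
            = ε • w 0 + (ε • fS w ({0}ᶜ : Finset (Fin (k + 1))) - (z i - w i)) := by abel
        rw [e]
        exact hC.cl_add h4 h2
      · have e : ε • w 0 + ε • fS w ({0}ᶜ : Finset (Fin (k + 1))) + (z i - w i)
            = ε • w 0 + (ε • fS w ({0}ᶜ : Finset (Fin (k + 1))) + (z i - w i)) := by abel
        rw [e]
        exact hC.cl_add h4 h3

end Pool.Agent.VMX.H47
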