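import Pool.Agent.VMX.StmtsC

/-!
VMX, row PQB: four vertices, first case.
-/

set_option autoImplicit false

open Matrix Filter Topology

namespace Pool.Agent.VMX.H47

open Pool.Agent.PFS Pool.Agent.PFJ Pool.Agent.NBT Pool.Agent.VMX

lemma comm_act' {n : ℕ} {g γ : GL (Fin n) ℝ} (h : γ * g = g * γ) (x : V n) :
    act γ (act g x) = act g (act γ x) := by
  rw [← CC.act_mul, h, CC.act_mul]

/-- limits of eigenvectors. -/
lemma eig_lim {n : ℕ} {g : GL (Fin n) ℝ} {γ : ℕ → GL (Fin n) ℝ} (hcom : ∀ m, γ m * g = g * γ m)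
    {r : ℕ → ℝ} {u v : V n} {s l : ℝ} (he : s • act g u = l • u)
    (hlim : Tendsto (fun m => r m • act (γ m) u) atTop (𝓝 v)) : s • act g v = l • v := by
  have h1 : Tendsto (fun m => s • act g (r m • act (γ m) u)) atTop (𝓝 (s • act g v)) :=
    (((CC.act_continuous g).tendsto v).comp hlim).const_smul s
  have h2 : Tendsto (fun m => l • (r m • act (γ m) u)) atTop (𝓝 (l • v)) := hlim.const_smul l
  refine tendsto_nhds_unique h1 ?_
  have h3 : (fun m => s • act g (r m • act (γ m) u)) = fun m => l • (r m • act (γ m) u) := by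
    funext m
    rw [CC.act_smul, ← comm_act' (hcom m), smul_comm s (r m), ← CC.act_smul (γ m) s, he,
      CC.act_smul, smul_comm (r m) l]
  rw [h3]
  exact h2

/-- the limit operator and an iterated scaled group element. -/
lemma T_iter {n : ℕ} {B : Submodule ℝ (V n)} {T : V n →ₗ[ℝ] V n} {e : GL (Fin n) ℝ} {r : ℝ}
    (hB : ∀ u ∈ B, act e u ∈ B) (hT : ∀ u ∈ B, T (act e u) = act e (T u)) :
    ∀ (m : ℕ), ∀ u ∈ B, ((sA r e) ^ m) u ∈ B ∧ T (((sA r e) ^ m) u) = ((sA r e) ^ m) (T u) := by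
  intro m
  induction m with
  | zero =>
    intro u hu
    rw [pow_zero]
    exact ⟨hu, rfl⟩
  | succ m ih =>
    intro u hu
    obtain ⟨h1, h2⟩ := ih u hu
    rw [pow_succ', Module.End.mul_apply, Module.End.mul_apply, sA_apply, sA_apply]
    refine ⟨B.smul_mem _ (hB _ h1), ?_⟩
    rw [map_smul, hT _ h1, h2]

lemma eig_iter {n : ℕ} {H : V n →ₗ[ℝ] V n} {q : V n} {ν : ℝ} (h : H q = ν • q) (m : ℕ) :
    (H ^ m) q = ν ^ m • q := by
  induction m with
  | zero => rw [pow_zero, pow_zero, one_smul]; rfl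
  | succ m ih =>
    rw [pow_succ', Module.End.mul_apply, ih, map_smul, h, smul_smul, pow_succ]

/-- comparison of eigenvalues by a limit operator. -/
lemma eig_lt {n : ℕ} {T : V n →ₗ[ℝ] V n} {H : V n →ₗ[ℝ] V n} {lam ν : ℝ} {f q c : V n} {κ : ℝ}
    (hν : 0 < ν) (hl : 0 < lam) (hq : q ≠ 0) (hTf : ∀ m : ℕ, T ((H ^ m) f) = (H ^ m) q)
    (hHq : H q = ν • q) (hTc : T c = 0)
    (hlim : Tendsto (fun m : ℕ => (lam⁻¹) ^ m • (H ^ m) f) atTop (𝓝 (κ • c))) : ν < lam := by
  have hTcont : Continuous T := LinearMap.continuous_of_finiteDimensional T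
  have h1 := (hTcont.tendsto (κ • c)).comp hlim
  rw [map_smul, hTc, smul_zero] at h1
  have h2 : (T ∘ fun m : ℕ => (lam⁻¹) ^ m • (H ^ m) f) = fun m : ℕ => (ν / lam) ^ m • q := by
    funext m
    simp only [Function.comp]
    rw [map_smul, hTf, eig_iter hHq, smul_smul]
    congr 1
    rw [div_pow, inv_pow]
    field_simp
  rw [h2] at h1
  by_contra hge
  rw [not_lt] at hge
  have h3 : 1 ≤ ν / lam := by rw [le_div_iff₀ hl]; linarith
  have h4 := h1.norm
  rw [norm_zero] at h4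
  have h5 : ∀ m : ℕ, ‖q‖ ≤ ‖(ν / lam) ^ m • q‖ := by
    intro m
    rw [norm_smul, Real.norm_of_nonneg (by positivity)]
    have := one_le_pow₀ h3 (n := m)
    have h6 := mul_le_mul_of_nonneg_right this (norm_nonneg q)
    linarith
  have h6 := ge_of_tendsto h4 (Eventually.of_forall h5)
  have h7 : 0 < ‖q‖ := norm_pos_iff.2 hq
  linarith

theorem pqb (hPqa : PqaStmt) (hLop : LopStmt) (_hAtf : AtfStmt) : PqbStmt := by
  intro n C Γ hK w hw g hg s la lc lb c b ψc ψb hs hlb hlbc hlca hinv hw0 hAc hAb hcL hbL hbB hnot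
  have hC : CC C Γ := hK.toCC
  have hul := hC.hul
  set f : V n := fS w ({0}ᶜ : Finset (Fin 4)) with hf
  have hf3 : f = w 1 + w 2 + w 3 := by
    rw [hf]
    unfold fS
    have : ({0}ᶜ : Finset (Fin 4)) = {1, 2, 3} := by decide
    rw [this]
    simp [Finset.sum_insert, add_assoc]
  have hfH : f ∈ Hull C Γ := by
    rw [hf3]
    exact hul.add _ (hul.add _ (hul.lamHull _ (hw.2 1)) _ (hul.lamHull _ (hw.2 2))) _
      (hul.lamHull _ (hw.2 3))
  have hfcl : f ∈ closure C := hul.hullCl _ hfH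
  have hUf : Unt C (BI C w ({0}ᶜ : Finset (Fin 4))) f := (fcs n C hC.toPCone f hfcl).1
  have hfB : f ∈ BI C w ({0}ᶜ : Finset (Fin 4)) := hUf.1
  have hcB : c ∈ BI C w ({0}ᶜ : Finset (Fin 4)) := hAc.mem
  have hlc : 0 < lc := hlb.trans hlbc
  have hla : 0 < la := hlc.trans hlca
  have hBg : ∀ u ∈ BI C w ({0}ᶜ : Finset (Fin 4)), act g u ∈ BI C w ({0}ᶜ : Finset (Fin 4)) := by
    intro u hu
    rw [← hinv, mem_img]
    exact ⟨u, hu, rfl⟩
  have hBgi : ∀ u ∈ BI C w ({0}ᶜ : Finset (Fin 4)),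
      act g⁻¹ u ∈ BI C w ({0}ᶜ : Finset (Fin 4)) := by
    intro u hu
    rw [← hinv, mem_img] at hu
    obtain ⟨y, hy, hyu⟩ := hu
    rw [← hyu, CC.act_inv_act]
    exact hy
  have hfC : f ∉ C := by
    have h1 := hw.1.bd (fun i => if i = 0 then 0 else 1) (fun i => by split_ifs <;> norm_num)
      ⟨0, if_pos rfl⟩
    have h2 : ∑ i : Fin 4, (if i = 0 then (0 : ℝ) else 1) • w i = f := by
      rw [hf3, Fin.sum_univ_four]
      simp
    rw [h2] at h1
    exact h1
  have hwf : w 0 + f ∈ C := by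
    have h1 := hw.1.sum_mem
    rw [Fin.sum_univ_four] at h1
    rw [hf3]
    have : w 0 + (w 1 + w 2 + w 3) = w 0 + w 1 + w 2 + w 3 := by abel
    rw [this]
    exact h1
  -- comparability of act g f and f
  obtain ⟨M1, hM1, hM1'⟩ := hUf.2.2 (act g f) (hBg f hfB)
  obtain ⟨M2, hM2, hM2'⟩ := hUf.2.2 (act g⁻¹ f) (hBgi f hfB)
  have hgfcl : act g f ∈ closure C := hC.act_cl hg hfcl
  have hMa : (M1 + M2) • f - act g f ∈ closure C := by
    have : (M1 + M2) • f - act g f = (M1 • f - act g f) + M2 • f := by module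
    rw [this]
    exact hC.cl_add hM1' (hC.cl_smul hfcl hM2.le)
  have hMb : (M1 + M2) • act g f - f ∈ closure C := by
    have h1 := hC.act_cl hg hM2'
    rw [CC.act_sub, CC.act_smul, CC.act_act_inv] at h1
    have : (M1 + M2) • act g f - f = (M2 • act g f - f) + M1 • act g f := by module
    rw [this]
    exact hC.cl_add h1 (hC.cl_smul hgfcl hM1.le)
  have hkap : ∀ κ : ℝ, 0 ≤ κ → κ • (c + b) + f ∉ C := by
    intro κ hκ hmem
    obtain ⟨M3, hM3, hM3'⟩ := hUf.2.2 (c + b) (Submodule.add_mem _ hcB hbB)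
    have h1 : (κ * M3 + 1) • f - (κ • (c + b) + f) ∈ closure C := by
      have : (κ * M3 + 1) • f - (κ • (c + b) + f) = κ • (M3 • f - (c + b)) := by module
      rw [this]
      exact hC.cl_smul hM3' hκ
    have h2 := hC.mem_of_le hmem h1
    exact hfC ((hC.smul_iff (by positivity : 0 < κ * M3 + 1)).1 h2)
  have heb : s • act g b = lb • b := by
    have h1 : s⁻¹ • act g⁻¹ b = lb⁻¹ • b := hAb.eig
    have h2 := congrArg (fun z => (s * lb) • act g z) h1
    simp only [CC.act_smul, CC.act_act_inv, smul_smul] at h2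
    have h3 : s * lb * s⁻¹ = lb := by field_simp
    have h4 : s * lb * lb⁻¹ = s := by field_simp
    rw [h3, h4] at h2
    exact h2.symm
  have hec : s • act g c = lc • c := hAc.eig
  obtain ⟨φ, γ, t, a', c', b', q, hφ, hγ, hcom, ht, hlima, hlimc, hlimb, hlimf, hsum, hpes⟩ :=
    hPqa n C Γ hC g hg s la lc lb (M1 + M2) (w 0) c b f hs hlb hlbc hlca (hw.2 0) hcL hbL hfH
      hw0 hec heb hMa hMb hwf hkap hnot
  have hcom' : ∀ m, γ m * g⁻¹ = g⁻¹ * γ m := by
    intro m
    have := hcom m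
    rw [eq_inv_mul_iff_mul_eq, ← mul_assoc, ← this, mul_assoc, mul_inv_cancel, mul_one]
  have ea' : s • act g a' = la • a' := eig_lim hcom hw0 hlima
  have ec' : s • act g c' = lc • c' := eig_lim hcom hec hlimc
  have eb' : s • act g b' = lb • b' := eig_lim hcom heb hlimb
  -- q is extreme
  have hqL : q ∈ LamC C Γ := hpes.2 3
  have hq0 : q ≠ 0 := hul.lamNe _ hqL
  have hqcl : q ∈ closure C := hul.lamCl _ hqL
  have hExt : Ext C q := exv n C Γ hC 4 (by norm_num) hK.maxc _ hpes 3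
  have hgqcl : act g q ∈ closure C := hC.act_cl hg hqcl
  have hMq : (M1 + M2) • q - act g q ∈ closure C := by
    have h1 : Tendsto (fun m => (M1 + M2) • (t m • act (γ m) f) - act g (t m • act (γ m) f)) atTop
        (𝓝 ((M1 + M2) • q - act g q)) :=
      (hlimf.const_smul _).sub (((CC.act_continuous g).tendsto q).comp hlimf)
    refine isClosed_closure.mem_of_tendsto h1 (Eventually.of_forall fun m => ?_)
    have h2 : t m • act (γ m) ((M1 + M2) • f - act g f) ∈ closure C :=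
      (hC.sact_cl_iff (hγ m) (ht m)).2 hMa
    have h3 : t m • act (γ m) ((M1 + M2) • f - act g f)
        = (M1 + M2) • (t m • act (γ m) f) - act g (t m • act (γ m) f) := by
      rw [CC.act_sub, CC.act_smul, comm_act' (hcom m), smul_sub, smul_comm (t m), CC.act_smul g]
    rw [← h3]
    exact h2
  obtain ⟨c0, hc0⟩ := hExt _ hgqcl _ hMq
  have hc0pos : 0 < c0 := by
    have hne : act g q ≠ 0 := by
      intro h0
      exact hq0 (CC.act_injective g (h0.trans (CC.act_zero g).symm))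
    rcases lt_trichotomy c0 0 with h0 | h0 | h0
    · exfalso
      apply hq0
      apply hC.salient q hqcl
      have h1 : (-c0⁻¹) • act g q ∈ closure C :=
        hC.cl_smul hgqcl (by rw [neg_nonneg]; exact (inv_lt_zero.2 h0).le)
      rw [hc0, smul_smul] at h1
      have : -c0⁻¹ * c0 = -1 := by
        rw [neg_mul, inv_mul_cancel₀ h0.ne]
      rw [this, neg_one_smul] at h1
      exact h1
    · exfalso
      apply hne
      rw [hc0, h0, zero_smul]
    · exact h0
  set ν : ℝ := s * c0 with hν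
  have hνpos : 0 < ν := mul_pos hs hc0pos
  have hHq : sA s g q = ν • q := by
    rw [sA_apply, hc0, smul_smul]
  have hHiq : sA s⁻¹ g⁻¹ q = ν⁻¹ • q := by
    rw [sA_apply]
    have h1 := congrArg (act g⁻¹) hc0
    rw [CC.act_inv_act, CC.act_smul] at h1
    have h2 : act g⁻¹ q = c0⁻¹ • q := by
      have h3 : c0⁻¹ • q = c0⁻¹ • (c0 • act g⁻¹ q) := by rw [← h1]
      rw [h3, smul_smul, inv_mul_cancel₀ hc0pos.ne', one_smul]
    rw [h2, smul_smul, hν, mul_inv]
  -- limit operator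
  set x : ℕ → V n := fun m => w 0 + ((φ m : ℝ) + 1) • (c + b) + f with hx
  have hbcl : b ∈ closure C := hAb.cl
  have hccl : c ∈ closure C := hAc.cl
  have hw0cl : w 0 ∈ closure C := hw.1.cl 0
  have hlimx : Tendsto (fun m => t m • act (γ m) (x m)) atTop (𝓝 (a' + c' + b' + q)) := by
    have h1 := ((hlima.add hlimc).add hlimb).add hlimf
    refine h1.congr fun m => ?_
    simp only [hx]
    rw [CC.act_add, CC.act_add, CC.act_smul, CC.act_add]
    module
  have hunits : ∀ u ∈ BI C w ({0}ᶜ : Finset (Fin 4)), ∃ M : ℝ, ∀ m,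
      M • x m - u ∈ closure C ∧ M • x m + u ∈ closure C := by
    intro u hu
    obtain ⟨M, hM, h1, h2⟩ := unt_two hC.toPCone hUf hu
    refine ⟨M, fun m => ?_⟩
    have h3 : M • (w 0 + ((φ m : ℝ) + 1) • (c + b)) ∈ closure C :=
      hC.cl_smul (hC.cl_add hw0cl (hC.cl_smul (hC.cl_add hccl hbcl) (by positivity))) hM.le
    constructor
    · have h4 : M • x m - u = M • (w 0 + ((φ m : ℝ) + 1) • (c + b)) + (M • f - u) := by
        simp only [hx]
        module
      rw [h4]
      exact hC.cl_add h3 h1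
    · have h4 : M • x m + u = M • (w 0 + ((φ m : ℝ) + 1) • (c + b)) + (M • f + u) := by
        simp only [hx]
        module
      rw [h4]
      exact hC.cl_add h3 h2
  obtain ⟨φ', T, hφ', hT⟩ := hLop n C Γ hC _ x γ t _ hγ ht hlimx hunits
  have hTf : T f = q := tendsto_nhds_unique (hT f hfB) (hlimf.comp hφ'.tendsto_atTop)
  have hzero : ∀ (u u' : V n), u ∈ BI C w ({0}ᶜ : Finset (Fin 4)) →
      Tendsto (fun m => (((φ m : ℝ) + 1) * t m) • act (γ m) u) atTop (𝓝 u') → T u = 0 := by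
    intro u u' hu hlu
    have h1 : Tendsto (fun m : ℕ => ((φ m : ℝ) + 1)⁻¹) atTop (𝓝 0) := by
      apply Tendsto.inv_tendsto_atTop
      exact (tendsto_natCast_atTop_atTop.comp hφ.tendsto_atTop).atTop_add tendsto_const_nhds
    have h2 := h1.smul hlu
    rw [zero_smul] at h2
    have h3 : (fun m : ℕ => ((φ m : ℝ) + 1)⁻¹ • (((φ m : ℝ) + 1) * t m) • act (γ m) u)
        = fun m => t m • act (γ m) u := by
      funext m
      rw [smul_smul, ← mul_assoc, inv_mul_cancel₀ (by positivity), one_mul]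
    rw [h3] at h2
    exact tendsto_nhds_unique (hT u hu) (h2.comp hφ'.tendsto_atTop)
  have hTc : T c = 0 := hzero c c' hcB hlimc
  have hTb : T b = 0 := hzero b b' hbB hlimb
  have hTe : ∀ e : GL (Fin n) ℝ, (∀ m, γ m * e = e * γ m) →
      (∀ u ∈ BI C w ({0}ᶜ : Finset (Fin 4)), act e u ∈ BI C w ({0}ᶜ : Finset (Fin 4))) →
      ∀ u ∈ BI C w ({0}ᶜ : Finset (Fin 4)), T (act e u) = act e (T u) := by
    intro e hce hBe u hu
    have h1 := hT (act e u) (hBe u hu)
    have h2 := ((CC.act_continuous e).tendsto (T u)).comp (hT u hu)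
    refine tendsto_nhds_unique h1 (h2.congr fun m => ?_)
    simp only [Function.comp]
    rw [CC.act_smul, comm_act' (hce _)]
  have hIt1 := T_iter (r := s) hBg (hTe g hcom hBg)
  have hIt2 := T_iter (r := s⁻¹) hBgi (hTe g⁻¹ hcom' hBgi)
  have hlt1 : ν < lc := by
    refine eig_lt (T := T) (H := sA s g) (f := f) (c := c) (κ := ψc f) hνpos hlc hq0 ?_ hHq hTc
      (hAc.lim f hfB)
    intro m
    rw [(hIt1 m f hfB).2, hTf]
  have hlt2 : ν⁻¹ < lb⁻¹ := by
    refine eig_lt (T := T) (H := sA s⁻¹ g⁻¹) (f := f) (c := b) (κ := ψb f) (inv_pos.2 hνpos)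
      (inv_pos.2 hlb) hq0 ?_ hHiq hTb (hAb.lim f Submodule.mem_top)
    intro m
    rw [(hIt2 m f hfB).2, hTf]
  have hlt3 : lb < ν := (inv_lt_inv₀ hνpos hlb).1 hlt2
  -- conclusion
  have hact : ∀ (v : V n) (l : ℝ), s • act g v = l • v → act g v = (l / s) • v := by
    intro v l h
    have h1 : act g v = s⁻¹ • (s • act g v) := by
      rw [smul_smul, inv_mul_cancel₀ hs.ne', one_smul]
    rw [h1, h, smul_smul]
    congr 1
    field_simp
  have hHq' : s • act g q = ν • q := hHq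
  refine ⟨![a', c', b', q], hpes, g, hg, fun i => (![la, lc, lb, ν] : Fin 4 → ℝ) i / s, ?_, ?_⟩
  · intro i j hij
    have h1 : (![la, lc, lb, ν] : Fin 4 → ℝ) i = (![la, lc, lb, ν] : Fin 4 → ℝ) j := by
      have h2 : (![la, lc, lb, ν] : Fin 4 → ℝ) i / s = (![la, lc, lb, ν] : Fin 4 → ℝ) j / s := hij
      rw [div_left_inj' hs.ne'] at h2
      exact h2
    fin_cases i <;> fin_cases j <;> first
      | rfl
      | (exfalso; simp at h1; linarith)
  · intro i
    fin_cases i
    · exact hact _ _ ea'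
    · exact hact _ _ ec'
    · exact hact _ _ eb'
    · exact hact _ _ hHq'

end Pool.Agent.VMX.H47
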