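import Pool.Agent.VMX.StmtsC

/-!
VMX, row ZZA: an element commuting with `g`, independent of it.
-/

set_option autoImplicit false

open Matrix Filter Topology

namespace Pool.Agent.VMX.H47

open Pool.Agent.PFS Pool.Agent.PFJ Pool.Agent.NBT Pool.Agent.VMX

/-- supporting functional at a boundary point. -/
lemma supp_fun {n : ℕ} {C : Set (V n)} (h : PCone C) {z : V n} (hzcl : z ∈ closure C)
    (hzC : z ∉ C) : ∃ θ : V n →ₗ[ℝ] ℝ, (∀ x ∈ C, 0 < θ x) ∧ (∀ x ∈ closure C, 0 ≤ θ x) ∧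
      θ z = 0 := by
  obtain ⟨f, hf⟩ := geometric_hahn_banach_open_point h.convex h.isOpen hzC
  have hfz : 0 ≤ f z := by
    by_contra hneg
    rw [not_le] at hneg
    obtain ⟨a, ha⟩ := h.nonempty
    have h1 := hf a ha
    have hfa : f a < 0 := h1.trans hneg
    have h2 : 0 < f z / f a := div_pos_of_neg_of_neg hneg hfa
    have h3 := hf _ (h.smul a ha _ h2)
    rw [map_smul, smul_eq_mul, div_mul_cancel₀ _ hfa.ne] at h3
    exact lt_irrefl _ h3
  have hle : ∀ a ∈ C, f a ≤ 0 := by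
    intro a ha
    by_contra hpos
    rw [not_le] at hpos
    have h2 : 0 < (f z + 1) / f a := by positivity
    have h3 := hf _ (h.smul a ha _ h2)
    rw [map_smul, smul_eq_mul, div_mul_cancel₀ _ hpos.ne'] at h3
    linarith
  have hlecl : ∀ a ∈ closure C, f a ≤ 0 := by
    intro a ha
    have hcl : IsClosed {x : V n | f x ≤ 0} := isClosed_le f.continuous continuous_const
    exact (closure_minimal (fun x hx => hle x hx) hcl) ha
  have hfz0 : f z = 0 := le_antisymm (hlecl z hzcl) hfz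
  refine ⟨-(f : V n →ₗ[ℝ] ℝ), ?_, ?_, ?_⟩
  · intro x hx
    have := hf x hx
    rw [hfz0] at this
    change 0 < -(f x)
    linarith
  · intro x hx
    have := hlecl x hx
    change 0 ≤ -(f x)
    linarith
  · change -(f z) = 0
    rw [hfz0, neg_zero]

lemma comm_act {n : ℕ} {g γ : GL (Fin n) ℝ} (h : γ * g = g * γ) (x : V n) :
    act γ (act g x) = act g (act γ x) := by
  rw [← CC.act_mul, h, CC.act_mul]

lemma act_pow_eig {n : ℕ} {g : GL (Fin n) ℝ} {D : ℝ} {v : V n} (h : act g v = D • v) (m : ℕ) :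
    act (g ^ m) v = D ^ m • v := by
  induction m with
  | zero => rw [pow_zero, pow_zero, CC.act_one, one_smul]
  | succ m ih =>
    rw [pow_succ', CC.act_mul, ih, CC.act_smul, h, smul_smul, pow_succ]

/-- the centraliser maps an attracting ray to itself. -/
lemma ray (hAtf : AtfStmt) {n : ℕ} {C : Set (V n)} {Γ : Subgroup (GL (Fin n) ℝ)} (hC : CC C Γ)
    {s lam : ℝ} {g : GL (Fin n) ℝ} {x : V n} {ψ : V n →ₗ[ℝ] ℝ}
    (hA : Atr C ⊤ (sA s g) lam x ψ) {γ : GL (Fin n) ℝ} (hγ : γ ∈ Γ) (hc : γ * g = g * γ)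
    {t : ℝ} (ht : 0 < t) : ∃ α : ℝ, 0 < α ∧ t • act γ x = α • x := by
  have hF := hAtf n C hC.toPCone ⊤ _ _ _ _ hA
  have heig : s • act g x = lam • x := hA.eig
  have h1 : sA s g (t • act γ x) = lam • (t • act γ x) := by
    rw [sA_apply, CC.act_smul, ← comm_act hc, smul_comm s t, ← CC.act_smul γ s, heig,
      CC.act_smul, smul_comm]
  have h2 := hF.2.1 (t • act γ x) Submodule.mem_top h1
  have hcl : t • act γ x ∈ closure C := hC.cl_smul (hC.act_cl hγ hA.cl) ht.le
  have h3 := hA.nn _ Submodule.mem_top hcl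
  refine ⟨ψ (t • act γ x), lt_of_le_of_ne h3 ?_, h2⟩
  intro h0
  rw [← h0, zero_smul] at h2
  have h4 : act γ x = 0 := by
    rcases smul_eq_zero.1 h2 with h5 | h5
    · exact absurd h5 ht.ne'
    · exact h5
  have h5 := CC.act_injective γ (h4.trans (CC.act_zero γ).symm)
  exact hF.1 h5

lemma core_contra {n : ℕ} {C : Set (V n)}
    {y : V n} {θ : V n →ₗ[ℝ] ℝ} (hθ0 : ∀ x ∈ closure C, 0 ≤ θ x)
    (hθy : 0 < θ y) {γ : GL (Fin n) ℝ} {t : ℝ} (ht : 0 < t)
    (hG : ∀ j : ℕ, θ (t ^ j • act (γ ^ j) y) ≤ 4 ^ j * θ y)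
    {e : GL (Fin n) ℝ} {D A M : ℝ} {v : V n} (hv : v ≠ 0) (hA : 4 < A)
    (hGv : t • act γ v = A • v) (hev : act e v = D • v) (hM : 0 < M)
    (hMe : ∀ m : ℕ, M • act (e ^ m) y - D ^ m • y ∈ closure C) (P q : ℕ) (hP : 1 ≤ P)
    (heq : γ ^ P = e ^ q) : False := by
  have hγv : act γ v = (A / t) • v := by
    have : act γ v = t⁻¹ • (t • act γ v) := by
      rw [smul_smul, inv_mul_cancel₀ ht.ne', one_smul]
    rw [this, hGv, smul_smul]
    congr 1
    field_simp
  have h1 : (A / t) ^ P • v = D ^ q • v := by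
    rw [← act_pow_eig hγv, heq, act_pow_eig hev]
  have h2 : (A / t) ^ P = D ^ q := by
    have h3 : ((A / t) ^ P - D ^ q) • v = 0 := by rw [sub_smul, h1, sub_self]
    rcases smul_eq_zero.1 h3 with h4 | h4
    · linarith
    · exact absurd h4 hv
  have hA4 : 1 < (A / 4) ^ P := by
    apply one_lt_pow₀ _ (by omega)
    rw [lt_div_iff₀ (by norm_num)]
    linarith
  obtain ⟨j, hj⟩ := pow_unbounded_of_one_lt M hA4
  have h5 := hθ0 _ (hMe (q * j))
  rw [map_sub, map_smul, map_smul, smul_eq_mul, smul_eq_mul, pow_mul, pow_mul, ← h2, ← heq,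
    ← pow_mul, ← pow_mul] at h5
  have h6 := hG (P * j)
  rw [map_smul, smul_eq_mul] at h6
  have h7 : (A / t) ^ (P * j) * θ y ≤ M * θ (act (γ ^ (P * j)) y) := by linarith
  have h8 : t ^ (P * j) * ((A / t) ^ (P * j) * θ y) ≤ t ^ (P * j) *
      (M * θ (act (γ ^ (P * j)) y)) := mul_le_mul_of_nonneg_left h7 (by positivity)
  have h9 : t ^ (P * j) * ((A / t) ^ (P * j) * θ y) = A ^ (P * j) * θ y := by
    rw [div_pow]
    field_simp
  have h10 : A ^ (P * j) * θ y ≤ M * (4 ^ (P * j) * θ y) := by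
    rw [← h9]
    refine h8.trans ?_
    have h11 := mul_le_mul_of_nonneg_left h6 hM.le
    calc t ^ (P * j) * (M * θ (act (γ ^ (P * j)) y))
        = M * (t ^ (P * j) * θ (act (γ ^ (P * j)) y)) := by ring
      _ ≤ M * (4 ^ (P * j) * θ y) := h11
  have h11 : A ^ (P * j) ≤ M * 4 ^ (P * j) := by
    have : A ^ (P * j) * θ y ≤ (M * 4 ^ (P * j)) * θ y := by linarith
    exact le_of_mul_le_mul_right this hθy
  have h12 : M * 4 ^ (P * j) < A ^ (P * j) := by
    have h13 : ((A / 4) ^ P) ^ j = A ^ (P * j) / 4 ^ (P * j) := by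
      rw [← pow_mul, div_pow]
    rw [h13, lt_div_iff₀ (by positivity)] at hj
    exact hj
  linarith

lemma iter_bd {n : ℕ} {C : Set (V n)} {Γ : Subgroup (GL (Fin n) ℝ)} (hC : CC C Γ)
    {γ : GL (Fin n) ℝ} (hγ : γ ∈ Γ) {t : ℝ} (ht : 0 < t) {a b y : V n} (ha : a ∈ closure C)
    (hb : b ∈ closure C) {A B K : ℝ} (hA : 0 < A) (hB : 0 < B) (hK : 0 ≤ K)
    (hGa : t • act γ a = A • a) (hGb : t • act γ b = B • b)
    (hGy : (4 : ℝ) • y + K • (a + b) - t • act γ y ∈ closure C) (j : ℕ) :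
    ∃ κ : ℝ, 0 ≤ κ ∧ (4 : ℝ) ^ j • y + κ • (a + b) - t ^ j • act (γ ^ j) y ∈ closure C := by
  induction j with
  | zero =>
    refine ⟨0, le_rfl, ?_⟩
    have : (4 : ℝ) ^ 0 • y + (0 : ℝ) • (a + b) - t ^ 0 • act (γ ^ 0) y = 0 := by
      rw [pow_zero, pow_zero, pow_zero, CC.act_one, one_smul, zero_smul]
      simp
    rw [this]
    exact hC.zero_cl
  | succ j ih =>
    obtain ⟨κ, hκ, hcl⟩ := ih
    refine ⟨4 ^ j * K + κ * (A + B), by positivity, ?_⟩
    have h1 : t • act γ ((4 : ℝ) ^ j • y + κ • (a + b) - t ^ j • act (γ ^ j) y) ∈ closure C :=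
      (hC.sact_cl_iff hγ ht).2 hcl
    have h2 : (4 : ℝ) ^ j • ((4 : ℝ) • y + K • (a + b) - t • act γ y) ∈ closure C :=
      hC.cl_smul hGy (by positivity)
    have h3 : (κ * B) • a + (κ * A) • b ∈ closure C :=
      hC.cl_add (hC.cl_smul ha (by positivity)) (hC.cl_smul hb (by positivity))
    have h4 := hC.cl_add (hC.cl_add h1 h2) h3
    have h5 : t • act γ ((4 : ℝ) ^ j • y + κ • (a + b) - t ^ j • act (γ ^ j) y)
        = (4 : ℝ) ^ j • (t • act γ y) + κ • (A • a + B • b)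
          - t ^ (j + 1) • act (γ ^ (j + 1)) y := by
      rw [CC.act_sub, CC.act_add, CC.act_smul, CC.act_smul, CC.act_smul, CC.act_add, smul_sub,
        smul_add, smul_comm t κ, smul_add t, hGa, hGb, pow_succ' γ, CC.act_mul, smul_smul t (t ^ j),
        ← pow_succ', smul_comm t ((4 : ℝ) ^ j)]
    rw [h5] at h4
    have h6 : (4 : ℝ) ^ j • (t • act γ y) + κ • (A • a + B • b)
          - t ^ (j + 1) • act (γ ^ (j + 1)) y
        + (4 : ℝ) ^ j • ((4 : ℝ) • y + K • (a + b) - t • act γ y)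
        + ((κ * B) • a + (κ * A) • b)
        = (4 : ℝ) ^ (j + 1) • y + (4 ^ j * K + κ * (A + B)) • (a + b)
          - t ^ (j + 1) • act (γ ^ (j + 1)) y := by
      rw [pow_succ (4 : ℝ)]
      module
    rw [h6] at h4
    exact h4

theorem zza (hAtf : AtfStmt) (hSbg : SbgStmt) : ZzaStmt := by
  intro n C Γ hC g hg s la μ a b ψ ψ' hs hμ hlt ha hb hAa hAb hab
  have hul := hC.hul
  have hacl : a ∈ closure C := hAa.cl
  have hbcl : b ∈ closure C := hAb.cl
  have hFa := hAtf n C hC.toPCone ⊤ _ _ _ _ hAa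
  have hFb := hAtf n C hC.toPCone ⊤ _ _ _ _ hAb
  have ha0 : a ≠ 0 := hFa.1
  have hb0 : b ≠ 0 := hFb.1
  have hla : 0 < la := hAa.pos
  have eiga : s • act g a = la • a := hAa.eig
  have eigb : s⁻¹ • act g⁻¹ b = μ⁻¹ • b := hAb.eig
  have ega : act g a = (la / s) • a := by
    have : act g a = s⁻¹ • (s • act g a) := by
      rw [smul_smul, inv_mul_cancel₀ hs.ne', one_smul]
    rw [this, eiga, smul_smul]
    congr 1
    field_simp
  have egib : act g⁻¹ b = (s / μ) • b := by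
    have : act g⁻¹ b = s • (s⁻¹ • act g⁻¹ b) := by
      rw [smul_smul, mul_inv_cancel₀ hs.ne', one_smul]
    rw [this, eigb, smul_smul]
    congr 1
  have egb : act g b = (μ / s) • b := by
    have h1 : act g (act g⁻¹ b) = b := CC.act_act_inv g b
    rw [egib, CC.act_smul] at h1
    have h2 : act g b = (μ / s) • ((s / μ) • act g b) := by
      rw [smul_smul]
      have : μ / s * (s / μ) = 1 := by field_simp
      rw [this, one_smul]
    rw [h2, h1]
  have egia : act g⁻¹ a = (s / la) • a := by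
    have h1 : act g⁻¹ (act g a) = a := CC.act_inv_act g a
    rw [ega, CC.act_smul] at h1
    have h2 : act g⁻¹ a = (s / la) • ((la / s) • act g⁻¹ a) := by
      rw [smul_smul]
      have : s / la * (la / s) = 1 := by field_simp
      rw [this, one_smul]
    rw [h2, h1]
  obtain ⟨y, hyC, hyH⟩ := hC.core
  have hycl : y ∈ closure C := subset_closure hyC
  have habcl : a + b ∈ closure C := hC.cl_add hacl hbcl
  have hgyC : act g y ∈ C := hC.mem g hg y hyC
  -- the sequence
  obtain ⟨M1, hM1, hM1'⟩ := hC.absorb hyC (act g y)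
  obtain ⟨M2, hM2, hM2'⟩ := hC.absorb hgyC y
  set M0 : ℝ := M1 + M2 + la / s + μ / s + s / la + s / μ with hM0
  have hp1 : 0 < la / s := by positivity
  have hp2 : 0 < μ / s := by positivity
  have hp3 : 0 < s / la := by positivity
  have hp4 : 0 < s / μ := by positivity
  have hM0pos : 0 < M0 := by positivity
  set x : ℕ → V n := fun m => ((m : ℝ) + 1) • (a + b) + y with hx
  have hxC : ∀ m, x m ∈ C := fun m =>
    hC.cl_add' (hC.cl_smul habcl (by positivity)) hyC
  have hxH : ∀ m, x m ∈ Hull C Γ := fun m =>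
    hul.add _ (hul.smul _ (hul.add _ (hul.lamHull _ ha) _ (hul.lamHull _ hb)) _ (by positivity))
      _ hyH
  have hgx : ∀ m, act g (x m) = ((m : ℝ) + 1) • ((la / s) • a + (μ / s) • b) + act g y := by
    intro m
    simp only [hx]
    rw [CC.act_add, CC.act_smul, CC.act_add, ega, egb]
  have hS1 : ∀ m, M0 • x m - act g (x m) ∈ closure C := by
    intro m
    rw [hgx]
    have e1 : M0 • x m - (((m : ℝ) + 1) • ((la / s) • a + (μ / s) • b) + act g y)
        = ((((m : ℝ) + 1) * (M0 - la / s)) • a + (((m : ℝ) + 1) * (M0 - μ / s)) • b)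
          + ((M0 - M1) • y + (M1 • y - act g y)) := by
      simp only [hx]
      module
    rw [e1]
    refine hC.cl_add (hC.cl_add (hC.cl_smul hacl ?_) (hC.cl_smul hbcl ?_))
      (hC.cl_add (hC.cl_smul hycl ?_) (subset_closure hM1'))
    · apply mul_nonneg (by positivity); rw [hM0]; linarith
    · apply mul_nonneg (by positivity); rw [hM0]; linarith
    · rw [hM0]; linarith
  have hS2 : ∀ m, M0 • act g (x m) - x m ∈ closure C := by
    intro m
    rw [hgx]
    have e1 : M0 • (((m : ℝ) + 1) • ((la / s) • a + (μ / s) • b) + act g y) - x m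
        = ((((m : ℝ) + 1) * (M0 * (la / s) - 1)) • a + (((m : ℝ) + 1) * (M0 * (μ / s) - 1)) • b)
          + ((M0 - M2) • act g y + (M2 • act g y - y)) := by
      simp only [hx]
      module
    rw [e1]
    refine hC.cl_add (hC.cl_add (hC.cl_smul hacl ?_) (hC.cl_smul hbcl ?_))
      (hC.cl_add (hC.cl_smul (subset_closure hgyC) ?_) (subset_closure hM2'))
    · apply mul_nonneg (by positivity)
      have : s / la * (la / s) = 1 := by field_simp
      have h2 : s / la ≤ M0 := by rw [hM0]; linarith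
      have := mul_le_mul_of_nonneg_right h2 hp1.le
      linarith
    · apply mul_nonneg (by positivity)
      have : s / μ * (μ / s) = 1 := by field_simp
      have h2 : s / μ ≤ M0 := by rw [hM0]; linarith
      have := mul_le_mul_of_nonneg_right h2 hp2.le
      linarith
    · rw [hM0]; linarith
  obtain ⟨φ, γ, t, p, hφ, hγ, hcom, ht, hp, hlim⟩ := hSbg n C Γ hC g hg x M0 hxC hxH hS1 hS2
  -- the eigenvalues on the two rays
  have hcom' : ∀ m, γ m * g⁻¹ = g⁻¹ * γ m := by
    intro m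
    have := hcom m
    rw [eq_inv_mul_iff_mul_eq, ← mul_assoc, ← this, mul_assoc, mul_inv_cancel, mul_one]
  choose α hα hαe using fun m => ray hAtf hC hAa (hγ m) (hcom m) (ht m)
  choose β hβ hβe using fun m => ray hAtf hC hAb (hγ m) (hcom' m) (ht m)
  obtain ⟨Bn, hBn, hnorm⟩ := hC.normal
  obtain ⟨R, hR⟩ := hlim.norm.bddAbove_range
  have hR' : ∀ m, ‖t m • act (γ m) (x (φ m))‖ ≤ R := fun m => hR ⟨m, rfl⟩
  have hR0 : 0 ≤ R := (norm_nonneg _).trans (hR' 0)
  have hGx : ∀ m, t m • act (γ m) (x (φ m))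
      = (((φ m : ℝ) + 1) * α m) • a + (((φ m : ℝ) + 1) * β m) • b + t m • act (γ m) y := by
    intro m
    simp only [hx]
    rw [CC.act_add, CC.act_smul, CC.act_add, smul_add, smul_comm (t m), smul_add (t m), hαe, hβe]
    module
  have hGy : ∀ m, t m • act (γ m) y ∈ closure C := fun m =>
    hC.cl_smul (hC.act_cl (hγ m) hycl) (ht m).le
  have hba : ∀ m, α m * ((m : ℝ) + 1) * ‖a‖ ≤ Bn * R := by
    intro m
    have h1 : (((φ m : ℝ) + 1) * α m) • a ∈ closure C :=
      hC.cl_smul hacl (mul_nonneg (by positivity) (hα m).le)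
    have h2 : t m • act (γ m) (x (φ m)) - (((φ m : ℝ) + 1) * α m) • a ∈ closure C := by
      rw [hGx]
      have : (((φ m : ℝ) + 1) * α m) • a + (((φ m : ℝ) + 1) * β m) • b + t m • act (γ m) y
          - (((φ m : ℝ) + 1) * α m) • a = (((φ m : ℝ) + 1) * β m) • b + t m • act (γ m) y := by
        abel
      rw [this]
      exact hC.cl_add (hC.cl_smul hbcl (mul_nonneg (by positivity) (hβ m).le)) (hGy m)
    have h3 := hnorm _ _ h1 h2
    rw [norm_smul, Real.norm_of_nonneg (mul_nonneg (by positivity) (hα m).le)] at h3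
    have h4 : (m : ℝ) ≤ (φ m : ℝ) := by exact_mod_cast hφ.le_apply
    have h5 := mul_le_mul_of_nonneg_left (hR' m) hBn.le
    have h6 : α m * ((m : ℝ) + 1) * ‖a‖ ≤ ((φ m : ℝ) + 1) * α m * ‖a‖ := by
      apply mul_le_mul_of_nonneg_right _ (norm_nonneg a)
      have := mul_le_mul_of_nonneg_left h4 (hα m).le
      linarith
    linarith
  have hbb : ∀ m, β m * ((m : ℝ) + 1) * ‖b‖ ≤ Bn * R := by
    intro m
    have h1 : (((φ m : ℝ) + 1) * β m) • b ∈ closure C :=
      hC.cl_smul hbcl (mul_nonneg (by positivity) (hβ m).le)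
    have h2 : t m • act (γ m) (x (φ m)) - (((φ m : ℝ) + 1) * β m) • b ∈ closure C := by
      rw [hGx]
      have : (((φ m : ℝ) + 1) * α m) • a + (((φ m : ℝ) + 1) * β m) • b + t m • act (γ m) y
          - (((φ m : ℝ) + 1) * β m) • b = (((φ m : ℝ) + 1) * α m) • a + t m • act (γ m) y := by
        abel
      rw [this]
      exact hC.cl_add (hC.cl_smul hacl (mul_nonneg (by positivity) (hα m).le)) (hGy m)
    have h3 := hnorm _ _ h1 h2
    rw [norm_smul, Real.norm_of_nonneg (mul_nonneg (by positivity) (hβ m).le)] at h3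
    have h4 : (m : ℝ) ≤ (φ m : ℝ) := by exact_mod_cast hφ.le_apply
    have h5 := mul_le_mul_of_nonneg_left (hR' m) hBn.le
    have h6 : β m * ((m : ℝ) + 1) * ‖b‖ ≤ ((φ m : ℝ) + 1) * β m * ‖b‖ := by
      apply mul_le_mul_of_nonneg_right _ (norm_nonneg b)
      have := mul_le_mul_of_nonneg_left h4 (hβ m).le
      linarith
    linarith
  have hna : 0 < ‖a‖ := norm_pos_iff.2 ha0
  have hnb : 0 < ‖b‖ := norm_pos_iff.2 hb0
  have hsq := hC.squeeze hp hlim (M := 2) (by norm_num)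
  obtain ⟨k, hk1, hk2⟩ := hsq.exists
  have hev1 : ∀ᶠ m : ℕ in atTop, 4 * (Bn * R) / (α k * ‖a‖) < (m : ℝ) :=
    tendsto_natCast_atTop_atTop.eventually (eventually_gt_atTop _)
  have hev2 : ∀ᶠ m : ℕ in atTop, 4 * (Bn * R) / (β k * ‖b‖) < (m : ℝ) :=
    tendsto_natCast_atTop_atTop.eventually (eventually_gt_atTop _)
  obtain ⟨l, ⟨hl1, hl2⟩, hl3, hl4⟩ := (hsq.and (hev1.and hev2)).exists
  have hαl : 4 * α l < α k := by
    have h1 := hba l
    rw [div_lt_iff₀ (mul_pos (hα k) hna)] at hl3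
    have h2 : 4 * α l * (((l : ℝ) + 1) * ‖a‖) < α k * (((l : ℝ) + 1) * ‖a‖) := by
      have h3 : 0 < α k * ‖a‖ := mul_pos (hα k) hna
      nlinarith
    exact lt_of_mul_lt_mul_right h2 (by positivity)
  have hβl : 4 * β l < β k := by
    have h1 := hbb l
    rw [div_lt_iff₀ (mul_pos (hβ k) hnb)] at hl4
    have h2 : 4 * β l * (((l : ℝ) + 1) * ‖b‖) < β k * (((l : ℝ) + 1) * ‖b‖) := by
      have h3 : 0 < β k * ‖b‖ := mul_pos (hβ k) hnb
      nlinarith
    exact lt_of_mul_lt_mul_right h2 (by positivity)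
  -- the element
  set δ : GL (Fin n) ℝ := (γ l)⁻¹ * γ k with hδ
  set τ : ℝ := t k / t l with hτ
  have hτpos : 0 < τ := div_pos (ht k) (ht l)
  have hδΓ : δ ∈ Γ := Γ.mul_mem (Γ.inv_mem (hγ l)) (hγ k)
  have hδg : δ * g = g * δ := by
    have h1 : (γ l)⁻¹ * g = g * (γ l)⁻¹ := by
      rw [inv_mul_eq_iff_eq_mul, ← mul_assoc, hcom l, mul_assoc, mul_inv_cancel, mul_one]
    rw [hδ, mul_assoc, hcom k, ← mul_assoc, h1, mul_assoc]
  have hinvray : ∀ (v : V n) (c : ℕ → ℝ), (∀ m, 0 < c m) →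
      (∀ m, t m • act (γ m) v = c m • v) → τ • act δ v = (c k / c l) • v := by
    intro v c hc hcv
    have h1 : act (γ l)⁻¹ v = (t l / c l) • v := by
      have h2 := congrArg (act (γ l)⁻¹) (hcv l)
      rw [CC.act_smul, CC.act_inv_act, CC.act_smul] at h2
      have h3 : act (γ l)⁻¹ v = (c l)⁻¹ • (c l • act (γ l)⁻¹ v) := by
        rw [smul_smul, inv_mul_cancel₀ (hc l).ne', one_smul]
      rw [h3, ← h2, smul_smul]
      congr 1
      field_simp
    rw [hδ, CC.act_mul, ← CC.act_smul]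
    have h4 : τ • act (γ k) v = (t l)⁻¹ • (t k • act (γ k) v) := by
      rw [smul_smul, hτ]
      congr 1
      field_simp
    rw [h4, hcv, smul_smul, CC.act_smul, h1, smul_smul]
    congr 1
    have := (ht l).ne'
    have := (hc l).ne'
    field_simp
  have hGa : τ • act δ a = (α k / α l) • a := hinvray a α hα hαe
  have hGb : τ • act δ b = (β k / β l) • b := hinvray b β hβ hβe
  have hA4 : 4 < α k / α l := by rw [lt_div_iff₀ (hα l)]; exact hαl
  have hB4 : 4 < β k / β l := by rw [lt_div_iff₀ (hβ l)]; exact hβl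
  have hGy4 : (4 : ℝ) • y + (4 * ((φ l : ℝ) + 1)) • (a + b) - τ • act δ y ∈ closure C := by
    -- t k act (γ k) (x (φ k)) ≤ 2 p ≤ 4 t l act (γ l) (x (φ l))
    have h1 : (4 : ℝ) • (t l • act (γ l) (x (φ l))) - t k • act (γ k) (x (φ k)) ∈ closure C := by
      have h2 := hC.cl_add (hC.cl_smul (subset_closure hl2) (t := 2) (by norm_num))
        (subset_closure hk1)
      have h3 : (2 : ℝ) • ((2 : ℝ) • (t l • act (γ l) (x (φ l))) - p)
          + ((2 : ℝ) • p - t k • act (γ k) (x (φ k)))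
          = (4 : ℝ) • (t l • act (γ l) (x (φ l))) - t k • act (γ k) (x (φ k)) := by
        module
      rw [h3] at h2
      exact h2
    have h4 : (t l)⁻¹ • act (γ l)⁻¹
        ((4 : ℝ) • (t l • act (γ l) (x (φ l))) - t k • act (γ k) (x (φ k))) ∈ closure C :=
      (hC.sact_cl_iff (Γ.inv_mem (hγ l)) (inv_pos.2 (ht l))).2 h1
    have h5 : (t l)⁻¹ • act (γ l)⁻¹
        ((4 : ℝ) • (t l • act (γ l) (x (φ l))) - t k • act (γ k) (x (φ k)))
        = (4 : ℝ) • x (φ l) - τ • act δ (x (φ k)) := by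
      rw [CC.act_sub, CC.act_smul, CC.act_smul, CC.act_smul, CC.act_inv_act, smul_sub,
        ← CC.act_mul, ← hδ, smul_smul (t l)⁻¹ (t k), smul_comm (t l)⁻¹ (4 : ℝ),
        smul_smul (t l)⁻¹ (t l), inv_mul_cancel₀ (ht l).ne', one_smul, hτ, div_eq_inv_mul]
    rw [h5] at h4
    have h6 : τ • act δ (x (φ k) - y) ∈ closure C := by
      apply (hC.sact_cl_iff hδΓ hτpos).2
      have : x (φ k) - y = ((φ k : ℝ) + 1) • (a + b) := by
        simp only [hx]
        abel
      rw [this]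
      exact hC.cl_smul habcl (by positivity)
    have h7 := hC.cl_add h4 h6
    have h8 : (4 : ℝ) • x (φ l) - τ • act δ (x (φ k)) + τ • act δ (x (φ k) - y)
        = (4 : ℝ) • y + (4 * ((φ l : ℝ) + 1)) • (a + b) - τ • act δ y := by
      rw [CC.act_sub, smul_sub]
      simp only [hx]
      module
    rw [h8] at h7
    exact h7
  -- the functional
  obtain ⟨θ, hθC, hθcl, hθab⟩ := supp_fun hC.toPCone habcl hab
  have hθy : 0 < θ y := hθC y hyC
  have hG : ∀ j : ℕ, θ (τ ^ j • act (δ ^ j) y) ≤ 4 ^ j * θ y := by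
    intro j
    obtain ⟨κ, _, hκ⟩ := iter_bd hC hδΓ hτpos hacl hbcl (by linarith : 0 < α k / α l)
      (by linarith : 0 < β k / β l) (by positivity) hGa hGb hGy4 j
    have h1 := hθcl _ hκ
    rw [map_sub, map_add, map_smul θ κ, hθab, smul_zero, add_zero, map_smul θ ((4 : ℝ) ^ j),
      smul_eq_mul] at h1
    linarith
  -- the two comparison facts
  obtain ⟨Ma, hMa, hMa'⟩ := hFa.2.2.2.1 y hyC y Submodule.mem_top
  obtain ⟨Mb, hMb, hMb'⟩ := hFb.2.2.2.1 y hyC y Submodule.mem_top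
  have hFA : ∀ m : ℕ, Ma • act (g⁻¹ ^ m) y - (s / la) ^ m • y ∈ closure C := by
    intro m
    have h1 := hMa' m
    rw [sA_pow] at h1
    have h2 := hC.act_cl (Γ.pow_mem (Γ.inv_mem hg) m) h1
    have h3 : act (g⁻¹ ^ m) (Ma • y - la⁻¹ ^ m • s ^ m • act (g ^ m) y)
        = Ma • act (g⁻¹ ^ m) y - (s / la) ^ m • y := by
      rw [CC.act_sub, CC.act_smul, CC.act_smul, CC.act_smul, inv_pow, CC.act_inv_act, smul_smul]
      congr 2
      rw [div_pow, inv_pow]
      field_simp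
    rw [h3] at h2
    exact h2
  have hFB : ∀ m : ℕ, Mb • act (g ^ m) y - (μ / s) ^ m • y ∈ closure C := by
    intro m
    have h1 := hMb' m
    rw [sA_pow] at h1
    have h2 := hC.act_cl (Γ.pow_mem hg m) h1
    have h3 : act (g ^ m) (Mb • y - μ⁻¹⁻¹ ^ m • s⁻¹ ^ m • act (g⁻¹ ^ m) y)
        = Mb • act (g ^ m) y - (μ / s) ^ m • y := by
      rw [CC.act_sub, CC.act_smul, CC.act_smul, CC.act_smul, inv_pow g, CC.act_act_inv, smul_smul,
        inv_inv]
      congr 2
      rw [div_pow, inv_pow]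
      field_simp
    rw [h3] at h2
    exact h2
  have hclaim : ∀ (P : ℕ) (Q : ℤ), 1 ≤ P → δ ^ P ≠ g ^ Q := by
    intro P Q hP heq
    obtain ⟨q, hq | hq⟩ := Int.eq_nat_or_neg Q
    · rw [hq, zpow_natCast] at heq
      exact core_contra hθcl hθy hτpos hG hb0 hB4 hGb egb hMb hFB P q hP heq
    · rw [hq, _root_.zpow_neg, zpow_natCast, ← inv_pow] at heq
      exact core_contra hθcl hθy hτpos hG ha0 hA4 hGa egia hMa hFA P q hP heq
  refine ⟨δ, hδΓ, hδg, ?_⟩
  intro P Q hPQ
  have hP0 : P = 0 := by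
    by_contra hne
    obtain ⟨p', hp' | hp'⟩ := Int.eq_nat_or_neg P
    · have hp1' : 1 ≤ p' := by
        rcases Nat.eq_zero_or_pos p' with h0 | h0
        · exfalso; apply hne; rw [hp', h0]; rfl
        · exact h0
      rw [hp', zpow_natCast] at hPQ
      apply hclaim p' (-Q) hp1'
      rw [_root_.zpow_neg]
      exact eq_inv_of_mul_eq_one_left hPQ
    · have hp1' : 1 ≤ p' := by
        rcases Nat.eq_zero_or_pos p' with h0 | h0
        · exfalso; apply hne; rw [hp', h0]; rfl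
        · exact h0
      rw [hp', _root_.zpow_neg, zpow_natCast] at hPQ
      apply hclaim p' Q hp1'
      exact inv_mul_eq_one.1 hPQ
  refine ⟨hP0, ?_⟩
  rw [hP0, zpow_zero, one_mul] at hPQ
  obtain ⟨q, hq⟩ : ∃ q : ℕ, (Q = q ∨ Q = -q) := Int.eq_nat_or_neg Q
  have hgq : g ^ q = 1 := by
    rcases hq with hq | hq
    · rw [hq, zpow_natCast] at hPQ
      exact hPQ
    · rw [hq, _root_.zpow_neg, zpow_natCast, inv_eq_one] at hPQ
      exact hPQ
  have h1 : (la / s) ^ q = 1 := by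
    have h2 := act_pow_eig ega q
    rw [hgq, CC.act_one] at h2
    have h3 : ((la / s) ^ q - 1) • a = 0 := by rw [sub_smul, ← h2, one_smul, sub_self]
    rcases smul_eq_zero.1 h3 with h4 | h4
    · linarith
    · exact absurd h4 ha0
  have h1' : (μ / s) ^ q = 1 := by
    have h2 := act_pow_eig egb q
    rw [hgq, CC.act_one] at h2
    have h3 : ((μ / s) ^ q - 1) • b = 0 := by rw [sub_smul, ← h2, one_smul, sub_self]
    rcases smul_eq_zero.1 h3 with h4 | h4
    · linarith
    · exact absurd h4 hb0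
  have hq0 : q = 0 := by
    by_contra hq0
    have h5 : μ / s < la / s := div_lt_div_of_pos_right hlt hs
    have h6 := pow_lt_pow_left₀ h5 hp2.le hq0
    rw [h1, h1'] at h6
    exact lt_irrefl _ h6
  rcases hq with hq | hq
  · rw [hq, hq0]; rfl
  · rw [hq, hq0]; rfl

end Pool.Agent.VMX.H47
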